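import Pool.Agent.H998.LT.Defs2

set_option autoImplicit false

/-! Fourier transform of `f (tail v) h (v 0)` and of `∏ k (v_i)`. -/

open MeasureTheory Real
open scoped FourierTransform ComplexConjugate

namespace Pool.Agent.H161.LT

open Pool.Agent.H998.LT

theorem e_mul (a b : ℝ) : e (a + b) = e a * e b := by
  unfold e
  rw [← Complex.exp_add]
  congr 1
  push_cast
  ring

theorem int_real {h H : ℝ → ℝ} {C : ℝ}
    (hN : Nice (fun y => (h y : ℂ)) (fun ξ => (H ξ : ℂ)) C) : Integrable h := by
  have h1 : Integrable fun y : ℝ => C * (1 + y ^ 2)⁻¹ := integrable_inv_one_add_sq.const_mul C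
  have hc : Continuous h := Complex.continuous_re.comp hN.cont
  refine h1.mono' hc.aestronglyMeasurable ?_
  filter_upwards with y
  rw [← div_eq_mul_inv]
  have := hN.bound y
  rwa [Complex.norm_real] at this

theorem four_one {g G : ℝ → ℂ} {C : ℝ} (hN : Nice g G C) (a : ℝ) :
    ∫ y : ℝ, g y * e (-(a * y)) = G a := by
  rw [← hN.fourier a, Real.fourier_real_eq_integral_exp_smul]
  refine integral_congr_ae ?_
  filter_upwards with y
  rw [smul_eq_mul, mul_comm]
  congr 1
  unfold e
  congr 1
  push_cast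
  ring

theorem t_prodft : S_prodft := by
  intro d f F hf hF h H C hN
  have hmp : MeasurePreserving (MeasurableEquiv.piFinSuccAbove (fun _ : Fin (d + 1) => ℝ) 0)
      volume volume := volume_preserving_piFinSuccAbove (fun _ : Fin (d + 1) => ℝ) 0
  have hE : ∀ v : Fin (d + 1) → ℝ,
      MeasurableEquiv.piFinSuccAbove (fun _ : Fin (d + 1) => ℝ) 0 v = (v 0, Fin.tail v) :=
    fun v => rfl
  constructor
  · have h1 : Integrable (fun p : ℝ × (Fin d → ℝ) => h p.1 * f p.2) :=
      (int_real hN).mul_prod hf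
    have h2 := (hmp.integrable_comp_emb
      (MeasurableEquiv.piFinSuccAbove (fun _ : Fin (d + 1) => ℝ) 0).measurableEmbedding).2 h1
    have h3 : pr f h = (fun p : ℝ × (Fin d → ℝ) => h p.1 * f p.2) ∘
        (MeasurableEquiv.piFinSuccAbove (fun _ : Fin (d + 1) => ℝ) 0) := by
      funext v
      rw [Function.comp_apply, hE]
      unfold pr
      ring
    rw [h3]
    exact h2
  · intro ξ
    have e1 : ∫ v : Fin (d + 1) → ℝ, (pr f h v : ℂ) * e (-(∑ i, ξ i * v i)) =
        ∫ p : ℝ × (Fin d → ℝ), ((h p.1 : ℂ) * e (-(ξ 0 * p.1))) *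
          ((f p.2 : ℂ) * e (-(∑ i, Fin.tail ξ i * p.2 i))) := by
      rw [← hmp.integral_comp' (g := fun p : ℝ × (Fin d → ℝ) =>
        ((h p.1 : ℂ) * e (-(ξ 0 * p.1))) * ((f p.2 : ℂ) * e (-(∑ i, Fin.tail ξ i * p.2 i))))]
      refine integral_congr_ae ?_
      filter_upwards with v
      rw [hE]
      have h1 : ∑ i, ξ i * v i = ξ 0 * v 0 + ∑ i, Fin.tail ξ i * Fin.tail v i := by
        rw [Fin.sum_univ_succ]
        rfl
      rw [h1, neg_add, e_mul]
      unfold pr
      push_cast
      ring
    rw [e1, MeasureTheory.Measure.volume_eq_prod,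
      integral_prod_mul (fun a : ℝ => (h a : ℂ) * e (-(ξ 0 * a)))
        (fun w : Fin d → ℝ => (f w : ℂ) * e (-(∑ i, Fin.tail ξ i * w i))),
      four_one hN, hF]
    unfold pr
    push_cast
    ring

theorem t_tpft : S_tpft := by
  intro d h H C hN
  induction d with
  | zero =>
    have huniv : (volume : Measure (Fin 0 → ℝ)) Set.univ = 1 := by
      rw [volume_pi, Measure.pi_univ]
      simp
    have : IsFiniteMeasure (volume : Measure (Fin 0 → ℝ)) := ⟨by rw [huniv]; simp⟩
    have h1 : ∀ k : ℝ → ℝ, tp (d := 0) k = fun _ => 1 := fun k => by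
      funext v
      unfold tp
      simp
    constructor
    · rw [h1]
      exact integrable_const _
    · intro ξ
      rw [h1, h1, integral_unique]
      rw [Measure.real, huniv]
      simp [e]
  | succ d ih =>
    have h1 : ∀ k : ℝ → ℝ, tp (d := d + 1) k = pr (tp (d := d) k) k := fun k => by
      funext v
      unfold tp pr
      rw [Fin.prod_univ_succ, mul_comm]
      rfl
    rw [h1, h1]
    exact t_prodft d _ _ ih.1 ih.2 h H C hN

end Pool.Agent.H161.LT
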